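import Pool.Agent.H29.EU.Nat

/-!
The crossing event of the slit strip is determined by the states.
-/

set_option autoImplicit false

namespace Pool.Agent.H29.EU

open Pool.Agent.H988R2.Perc Finset MeasureTheory ProbabilityTheory unitInterval Filter Topology
open Pool.Agent.H980R3.Slit Pool.Agent.H863R4
open Q292.Env Relation

/-- joined in one of the three parts -/
def Un (a b : ℕ) (ω : Conf) (c d : ℤ) : Prop := ∃ l : Fin 3, state a b ω l c d

theorem slit_iff {a b : ℕ} (ha : Odd a) (hb : Odd b) (ω : Conf) :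
    ω ∈ SlitCross a b ↔ ∃ M, ω ∈ WinS a b M := by
  have h4 := t_C04 t_C01 t_C02 t_C03
  have h5 := t_C05 t_C01 t_C02 t_C03
  rw [← iUnion_winS h4 h5 t_C06 t_C07 ha hb, Set.mem_iUnion]

/-- the relation `J3` of the window -/
abbrev JW (a b M : ℕ) (ω : Conf) : ℕ → ℕ → Prop :=
  J3 a (X (a+b+1) (actBit (oPast ω M)) M) (X a (actBit (oFut ω M)) M)
    (X b (actBit (oFutR a ω M)) M)

theorem sw0 {a b M : ℕ} {ω : Conf} {x y : ℕ} :
    SW a b M ω 0 x y ↔ (X (a+b+1) (actBit (oPast ω M)) M).rel x y := by
  unfold SW tri; simp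

theorem sw1 {a b M : ℕ} {ω : Conf} {x y : ℕ} :
    SW a b M ω 1 x y ↔ (X a (actBit (oFut ω M)) M).rel x y := by
  unfold SW tri; simp

theorem sw2 {a b M : ℕ} {ω : Conf} {x y : ℕ} :
    SW a b M ω 2 x y ↔ (X b (actBit (oFutR a ω M)) M).rel x y := by
  unfold SW tri; simp

theorem JW_mono {a b : ℕ} (ha : Odd a) (hb : Odd b) {M M' : ℕ} (hM : M ≤ M') {ω : Conf}
    {x y : ℕ} (h : JW a b M ω x y) : JW a b M' ω x y := by
  rcases h with h | ⟨h, h1, h2⟩ | ⟨h1, h2, h⟩
  · exact Or.inl (sw0.1 (SW_mono ha hb hM (sw0.2 h)))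
  · exact Or.inr (Or.inl ⟨sw1.1 (SW_mono ha hb hM (sw1.2 h)), h1, h2⟩)
  · exact Or.inr (Or.inr ⟨h1, h2, sw2.1 (SW_mono ha hb hM (sw2.2 h))⟩)

/-- **the crossing event** -/
theorem cross_iff {a b : ℕ} (ha : Odd a) (hb : Odd b) (ω : Conf) :
    ω ∈ SCross a b ↔ EqvGen (Un a b ω) 0 (((b:ℤ) + 1) / 2) := by
  obtain ⟨k, hk⟩ := id ha
  obtain ⟨kb, hkb⟩ := id hb
  have h0 : ω ∈ SCross a b ↔ shc k ω ∈ SlitCross a b := by
    rw [scross_preimage k hk b, cross_eq31]
    rfl
  rw [h0, slit_iff ha hb]
  constructor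
  · rintro ⟨M, hM⟩
    have key := T22.eqvGen_map (E := JW a b M (shc k ω)) (F := Un a b ω)
      (fun x : ℕ => ((x:ℤ) - a) / 2) ?_ hM
    · have e1 : ((a:ℤ) - a) / 2 = 0 := by omega
      have e2 : (((a + b + 1 : ℕ) : ℤ) - a) / 2 = ((b:ℤ) + 1) / 2 := by push_cast; congr 1; ring
      simp only [e1, e2] at key
      exact key
    · intro x y h
      have hst : ∀ l : Fin 3, SW a b M (shc k ω) l (fc a l (((x:ℤ) - a) / 2))
          (fc a l (((y:ℤ) - a) / 2)) → Rg a b l (((x:ℤ) - a) / 2) → Rg a b l (((y:ℤ) - a) / 2) →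
          EqvGen (Un a b ω) (((x:ℤ) - a) / 2) (((y:ℤ) - a) / 2) := by
        intro l h1 h2 h3
        refine EqvGen.rel _ _ ⟨l, ?_⟩
        rw [state_eq hk hb ω]
        exact Or.inr ⟨h2, h3, M, h1⟩
      rcases h with h | ⟨h, h1, h2⟩ | ⟨h1, h2, h⟩
      · rcases SW_cases ha hb (sw0.2 h) with e | ⟨g1, g2, g3, g4⟩
        · subst e; exact EqvGen.refl _
        · unfold wd at g3 g4
          rw [if_pos rfl] at g3 g4
          have e1 : fc a 0 (((x:ℤ) - a) / 2) = x := by
            unfold fc sf; simp; omega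
          have e2 : fc a 0 (((y:ℤ) - a) / 2) = y := by
            unfold fc sf; simp; omega
          refine hst 0 ?_ ?_ ?_
          · rw [e1, e2]; exact sw0.2 h
          · unfold Rg Part; rw [if_pos rfl]; dsimp only; omega
          · unfold Rg Part; rw [if_pos rfl]; dsimp only; omega
      · rcases SW_cases ha hb (sw1.2 h) with e | ⟨g1, g2, g3, g4⟩
        · subst e; exact EqvGen.refl _
        · have e1 : fc a 1 (((x:ℤ) - a) / 2) = x := by
            unfold fc sf; simp; omega
          have e2 : fc a 1 (((y:ℤ) - a) / 2) = y := by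
            unfold fc sf; simp; omega
          refine hst 1 ?_ ?_ ?_
          · rw [e1, e2]; exact sw1.2 h
          · unfold Rg Part; rw [if_neg (by simp), if_pos rfl]; dsimp only; omega
          · unfold Rg Part; rw [if_neg (by simp), if_pos rfl]; dsimp only; omega
      · rcases SW_cases ha hb (sw2.2 h) with e | ⟨g1, g2, g3, g4⟩
        · have : x = y := by omega
          subst this; exact EqvGen.refl _
        · unfold wd at g3 g4
          rw [if_neg (by simp), if_neg (by simp)] at g3 g4
          have e1 : fc a 2 (((x:ℤ) - a) / 2) = x - (a+1) := by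
            unfold fc sf; simp; omega
          have e2 : fc a 2 (((y:ℤ) - a) / 2) = y - (a+1) := by
            unfold fc sf; simp; omega
          refine hst 2 ?_ ?_ ?_
          · rw [e1, e2]; exact sw2.2 h
          · unfold Rg Part; rw [if_neg (by simp), if_neg (by simp)]; dsimp only; omega
          · unfold Rg Part; rw [if_neg (by simp), if_neg (by simp)]; dsimp only; omega
  · intro h
    have key : ∀ c d : ℤ, EqvGen (Un a b ω) c d → ∃ M, EqvGen (JW a b M (shc k ω))
        (2 * c + a).toNat (2 * d + a).toNat := by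
      intro c d h
      induction h with
      | rel c d h =>
        obtain ⟨l, h⟩ := h
        rw [state_eq hk hb ω] at h
        rcases h with h | ⟨h1, h2, M, h3⟩
        · subst h; exact ⟨0, EqvGen.refl _⟩
        · refine ⟨M, EqvGen.rel _ _ ?_⟩
          unfold Rg Part at h1 h2
          have hl : l = 0 ∨ l = 1 ∨ l = 2 := by fin_cases l <;> simp
          rcases hl with rfl | rfl | rfl
          · rw [if_pos rfl] at h1 h2
            dsimp only at h1 h2
            refine Or.inl ?_
            have h4 := sw0.1 h3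
            have e1 : fc a 0 c = (2 * c + a).toNat := by unfold fc sf; simp
            have e2 : fc a 0 d = (2 * d + a).toNat := by unfold fc sf; simp
            rwa [← e1, ← e2]
          · rw [if_neg (by simp), if_pos rfl] at h1 h2
            dsimp only at h1 h2
            refine Or.inr (Or.inl ⟨?_, by omega, by omega⟩)
            have h4 := sw1.1 h3
            have e1 : fc a 1 c = (2 * c + a).toNat := by unfold fc sf; simp
            have e2 : fc a 1 d = (2 * d + a).toNat := by unfold fc sf; simp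
            rwa [← e1, ← e2]
          · rw [if_neg (by simp), if_neg (by simp)] at h1 h2
            dsimp only at h1 h2
            refine Or.inr (Or.inr ⟨by omega, by omega, ?_⟩)
            have h4 := sw2.1 h3
            have e1 : fc a 2 c = (2 * c + a).toNat - (a + 1) := by unfold fc sf; simp; omega
            have e2 : fc a 2 d = (2 * d + a).toNat - (a + 1) := by unfold fc sf; simp; omega
            rwa [← e1, ← e2]
      | refl c => exact ⟨0, EqvGen.refl _⟩
      | symm c d _ ih =>
        obtain ⟨M, h⟩ := ih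
        exact ⟨M, h.symm⟩
      | trans c d e _ _ ih1 ih2 =>
        obtain ⟨M, h⟩ := ih1
        obtain ⟨M', h'⟩ := ih2
        exact ⟨max M M', (h.mono fun _ _ => JW_mono ha hb (le_max_left _ _)).trans _ _ _
          (h'.mono fun _ _ => JW_mono ha hb (le_max_right _ _))⟩
    obtain ⟨M, hM⟩ := key _ _ h
    refine ⟨M, ?_⟩
    have e1 : (2 * (0:ℤ) + a).toNat = a := by omega
    have e2 : (2 * (((b:ℤ) + 1) / 2) + a).toNat = a + b + 1 := by omega
    rw [e1, e2] at hM
    exact hM

end Pool.Agent.H29.EU
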