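import Pool.Agent.H29.EU.State
import Pool.Graph.R_pool_sql_team_seeded_3997aac3.Q292.Env.Final

/-!
Independence, at `p = 1/2`, of an event whose probability is the same in all layered environments
and of the differences of the anisotropies of the layers of the double layers.
-/

set_option autoImplicit false

namespace Pool.Agent.H29.EU

open Pool.Agent.H988R2.Perc Finset MeasureTheory ProbabilityTheory unitInterval Filter Topology
open Pool.Agent.H980R3.Slit Pool.Agent.H863R4
open Q292.Env
open scoped ENNReal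

/-- the probability of `A` does not depend on the weights of finitely many groups -/
def Inv (a b : ℕ) (A : Set Conf) : Prop :=
  ∀ (S : Finset (ℤ × Bool)), Can S → ∀ x : ℤ × Bool → I,
    (percP (pS a b S x)).real A = perc.real A

theorem inv_SI {a b : ℕ} (ha : Odd a) (hb : Odd b) (E : Set Tri) :
    Inv a b {ω : Conf | SI a b ω ∈ E} := by
  classical
  intro S hS x
  refine percP_SI_eq (lay_pS a b S hS x) ?_ ?_ ?_ ha hb E
  · refine ⟨1/2, by norm_num, (freq_out S (fun n => (-(n:ℤ)-1, false)) ?_).mono fun n hn => ?_⟩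
    · intro m n h
      simp only [Prod.mk.injEq, and_true] at h
      omega
    · simp only at hn ⊢
      rw [if_neg hn, hlf_val]
      norm_num
  · refine ⟨1/2, by norm_num, (freq_out S (fun n => ((n:ℤ), false)) ?_).mono fun n hn => ?_⟩
    · intro m n h
      simp only [Prod.mk.injEq, and_true] at h
      omega
    · simp only at hn ⊢
      rw [if_neg hn, hlf_val]
      norm_num
  · refine ⟨1/2, by norm_num, (freq_out S (fun n => ((n:ℤ), true)) ?_).mono fun n hn => ?_⟩
    · intro m n h
      simp only [Prod.mk.injEq, and_true] at h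
      omega
    · simp only at hn ⊢
      rw [if_neg hn, hlf_val]
      norm_num

/-- **independence** -/
theorem indep_gen {a b : ℕ} {A : Set Conf} (hA : MeasurableSet A) (hI : Inv a b A)
    (S : Finset (ℤ × Bool)) (hS : Can S) (v : (ℤ × Bool) →₀ ℕ) (hv : v ∈ VV a b S) :
    perc.real (A ∩ EV a b S v) = perc.real A * perc.real (EV a b S v) := by
  classical
  set c : ((ℤ × Bool) →₀ ℕ) → ℝ := fun v => perc.real (A ∩ EV a b S v) -
    perc.real A * perc.real (EV a b S v) with hc
  set P : MvPolynomial (ℤ × Bool) ℝ := ∑ v ∈ VV a b S, MvPolynomial.monomial v (c v) with hP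
  have hP0 : P = 0 := by
    refine MvPolynomial.funext_set (fun _ => Set.Ioi (0:ℝ)) (fun _ => Set.Ioi_infinite 0) ?_
    intro t ht
    have ht' : ∀ ι, 0 < t ι := fun ι => ht ι (Set.mem_univ _)
    rw [hP, map_sum, map_zero]
    simp only [MvPolynomial.eval_monomial]
    set x : ℤ × Bool → I := fun ι => odds (t ι) (ht' ι) with hx
    have s1 := percP_sum a b S (pS a b S x) hA
    have s2 := percP_sum a b S (pS a b S x) MeasurableSet.univ
    rw [hI S hS x] at s1
    rw [probReal_univ] at s2
    simp only [Set.univ_inter] at s2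
    have s3 : ∀ v ∈ VV a b S, (percP (pS a b S x)).real (A ∩ EV a b S v) =
        (∏ ι ∈ S, (2 / (1 + t ι)) ^ (tl a b ι).card) * (∏ ι ∈ S, t ι ^ (v ι)) *
          perc.real (A ∩ EV a b S v) := by
      intro v hv
      rw [percP_EV a b S hS x v hA, hx, wv_odds a b S t ht' v hv]
    have s4 : ∀ v ∈ VV a b S, (percP (pS a b S x)).real (EV a b S v) =
        (∏ ι ∈ S, (2 / (1 + t ι)) ^ (tl a b ι).card) * (∏ ι ∈ S, t ι ^ (v ι)) *
          perc.real (EV a b S v) := by
      intro v hv
      have := percP_EV a b S hS x v MeasurableSet.univ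
      simp only [Set.univ_inter] at this
      rw [this, hx, wv_odds a b S t ht' v hv]
    rw [Finset.sum_congr rfl s3] at s1
    rw [Finset.sum_congr rfl s4] at s2
    have hC : (∏ ι ∈ S, (2 / (1 + t ι)) ^ (tl a b ι).card) ≠ 0 := by
      refine Finset.prod_ne_zero_iff.2 fun ι _ => pow_ne_zero _ ?_
      have := ht' ι
      positivity
    have s5 : (∏ ι ∈ S, (2 / (1 + t ι)) ^ (tl a b ι).card) *
        ∑ v ∈ VV a b S, c v * ∏ ι ∈ S, t ι ^ (v ι) = 0 := by
      have e : ∀ v : (ℤ × Bool) →₀ ℕ, c v * ∏ ι ∈ S, t ι ^ (v ι) =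
          (∏ ι ∈ S, t ι ^ (v ι)) * perc.real (A ∩ EV a b S v) -
            perc.real A * ((∏ ι ∈ S, t ι ^ (v ι)) * perc.real (EV a b S v)) := by
        intro v
        rw [hc]
        ring
      simp_rw [e]
      have s1' : (∏ ι ∈ S, (2 / (1 + t ι)) ^ (tl a b ι).card) *
          ∑ v ∈ VV a b S, (∏ ι ∈ S, t ι ^ (v ι)) * perc.real (A ∩ EV a b S v) =
          perc.real A := by
        rw [Finset.mul_sum]
        simp only [← mul_assoc]
        exact s1.symm
      have s2' : (∏ ι ∈ S, (2 / (1 + t ι)) ^ (tl a b ι).card) *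
          ∑ v ∈ VV a b S, (∏ ι ∈ S, t ι ^ (v ι)) * perc.real (EV a b S v) = 1 := by
        rw [Finset.mul_sum]
        simp only [← mul_assoc]
        exact s2.symm
      rw [Finset.sum_sub_distrib, ← Finset.mul_sum, mul_sub, s1', mul_left_comm, s2']
      ring
    have s6 := (mul_eq_zero.1 s5).resolve_left hC
    rw [← s6]
    refine Finset.sum_congr rfl fun v hv => ?_
    congr 1
    have hsub := (Finset.mem_finsupp_iff.1 hv).1
    rw [Finsupp.prod_of_support_subset v hsub _ (fun _ _ => pow_zero _)]
  have h1 : MvPolynomial.coeff v P = c v := by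
    rw [hP, MvPolynomial.coeff_sum]
    simp only [MvPolynomial.coeff_monomial]
    rw [Finset.sum_ite_eq' (VV a b S) v c, if_pos hv]
  rw [hP0, MvPolynomial.coeff_zero] at h1
  have : perc.real (A ∩ EV a b S v) - perc.real A * perc.real (EV a b S v) = 0 := h1.symm
  linarith

/-- independence, arbitrary values -/
theorem indep_gen' {a b : ℕ} {A : Set Conf} (hA : MeasurableSet A) (hI : Inv a b A)
    (S : Finset (ℤ × Bool)) (hS : Can S) (v : ℤ × Bool → ℕ) :
    perc.real (A ∩ EV a b S v) = perc.real A * perc.real (EV a b S v) := by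
  classical
  by_cases hv : ∀ ι ∈ S, v ι ≤ (tl a b ι).card
  · have h := indep_gen hA hI S hS (Finsupp.indicator S (fun ι _ => v ι)) (by
      unfold VV
      rw [Finset.mem_finsupp_iff]
      refine ⟨Finsupp.support_indicator_subset _ _, fun ι hι => ?_⟩
      rw [Finsupp.indicator_of_mem hι, Finset.mem_range]
      exact Nat.lt_succ_of_le (hv ι hι))
    have e : EV a b S (Finsupp.indicator S (fun ι _ => v ι)) = EV a b S v := by
      ext ω
      unfold EV
      simp only [Set.mem_ofPred_eq]
      constructor
      · intro h ι hι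
        rw [h ι hι, Finsupp.indicator_of_mem hι]
      · intro h ι hι
        rw [h ι hι, Finsupp.indicator_of_mem hι]
    rwa [e] at h
  · have e : EV a b S v = ∅ := by
      rw [Set.eq_empty_iff_forall_notMem]
      intro ω hω
      apply hv
      intro ι hι
      rw [← hω ι hι]
      exact NN_le a b ω ι
    rw [e]
    simp

/-- the shift of the configurations as a preimage -/
def shp (k : ℕ) (A : Set Conf) : Set Conf :=
  (fun ω : Conf => fun i => ω ((sh ((k:ℤ) + 1) (-(k:ℤ))).symm i)) ⁻¹' A

theorem measurableSet_shp (k : ℕ) {A : Set Conf} (hA : MeasurableSet A) :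
    MeasurableSet (shp k A) :=
  hA.preimage (measurable_pi_lambda _ fun _ => measurable_pi_apply _)

/-- independence in the coordinates of the slit, finitely many indices -/
theorem indep_fin {a b k : ℕ} (hk : a = 2 * k + 1) {A : Set Conf} (hA : MeasurableSet A)
    (hI : Inv a b A) (S : Finset (Fin 3 × ℕ)) (d : Fin 3 × ℕ → ℤ) :
    perc.real (shp k A ∩ {ω | ∀ i ∈ S, DD a b ω i = d i}) =
      perc.real (shp k A) * perc.real {ω | ∀ i ∈ S, DD a b ω i = d i} := by
  classical
  set c : Fin 3 × ℕ → ℤ := fun i => (((tl a b (ph i)).filter (fun t => t.1 % 2 = 0)).card : ℤ)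
    with hc
  by_cases hneg : ∀ i ∈ S, 0 ≤ c i - d i
  · -- the values
    set v : ℤ × Bool → ℕ := fun ι => if h : ∃ i ∈ S, ph i = ι then (c h.choose - d h.choose).toNat
      else 0 with hv
    have hvi : ∀ i ∈ S, (v (ph i) : ℤ) = c i - d i := by
      intro i hi
      have hex : ∃ i' ∈ S, ph i' = ph i := ⟨i, hi, rfl⟩
      have he : hex.choose = i := ph_inj hex.choose_spec.2
      rw [hv]
      simp only
      rw [dif_pos hex, he, Int.toNat_of_nonneg (hneg i hi)]
    have hcan : Can (S.image ph) := by
      intro ι hι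
      rw [Finset.mem_image] at hι
      obtain ⟨i, _, rfl⟩ := hι
      unfold ph
      intro h
      split_ifs at h ⊢
      · rfl
      · rfl
      · simp only at h; omega
    have hE : {ω | ∀ i ∈ S, DD a b ω i = d i} = shp k (EV a b (S.image ph) v) := by
      ext ω
      simp only [shp, Set.mem_ofPred_eq, Set.mem_preimage, EV]
      constructor
      · intro h ι hι
        rw [Finset.mem_image] at hι
        obtain ⟨i, hi, rfl⟩ := hι
        have h1 := NN_add a b k hk ω i
        have h2 := hvi i hi
        have h3 := h i hi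
        have : (NN a b (shc k ω) (ph i) : ℤ) = v (ph i) := by
          rw [h2]
          simp only [hc]
          linarith
        exact_mod_cast this
      · intro h i hi
        have h1 := NN_add a b k hk ω i
        have h2 := hvi i hi
        have h3 : NN a b (shc k ω) (ph i) = v (ph i) := h (ph i) (Finset.mem_image_of_mem _ hi)
        rw [h3, h2] at h1
        simp only [hc] at h1
        linarith
    rw [hE]
    unfold shp
    rw [← Set.preimage_inter, perc_map, perc_map, perc_map]
    exact indep_gen' hA hI (S.image ph) hcan v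
  · have hE : {ω | ∀ i ∈ S, DD a b ω i = d i} = ∅ := by
      rw [Set.eq_empty_iff_forall_notMem]
      intro ω hω
      apply hneg
      intro i hi
      have h1 := NN_add a b k hk ω i
      have h2 : DD a b ω i = d i := hω i hi
      have h3 : (0:ℤ) ≤ NN a b (shc k ω) (ph i) := by positivity
      simp only [hc]
      linarith
    rw [hE]
    simp

/-- **independence of all the differences** -/
theorem indep_all' {a b k : ℕ} (hk : a = 2 * k + 1) {A : Set Conf} (hA : MeasurableSet A)
    (hI : Inv a b A) (B : Set (Fin 3 × ℕ → ℤ)) (hB : MeasurableSet B) :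
    perc.real (shp k A ∩ {ω | (fun i => DD a b ω i) ∈ B}) =
      perc.real (shp k A) * perc.real {ω | (fun i => DD a b ω i) ∈ B} := by
  classical
  set C : Set (Set Conf) := {E | ∃ (S : Finset (Fin 3 × ℕ)) (d : Fin 3 × ℕ → ℤ),
    E = {ω | ∀ i ∈ S, DD a b ω i = d i}} with hC
  have hmC : ∀ E ∈ C, MeasurableSet E := by
    rintro E ⟨S, d, rfl⟩
    have : {ω | ∀ i ∈ S, DD a b ω i = d i} = ⋂ i ∈ S, (fun ω : Conf => DD a b ω i) ⁻¹' {d i} := by
      ext ω; simp
    rw [this]
    exact Finset.measurableSet_biInter _ fun i _ =>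
      measurable_DD a b i (measurableSet_singleton _)
  have hpi : IsPiSystem C := by
    rintro E ⟨S, d, rfl⟩ E' ⟨S', d', rfl⟩ ⟨ω0, h1, h2⟩
    refine ⟨S ∪ S', fun i => DD a b ω0 i, ?_⟩
    ext ω
    simp only [Set.mem_inter_iff, Set.mem_ofPred_eq, Finset.mem_union] at h1 h2 ⊢
    constructor
    · rintro ⟨g1, g2⟩ i (hi | hi)
      · rw [g1 i hi, h1 i hi]
      · rw [g2 i hi, h2 i hi]
    · intro g
      exact ⟨fun i hi => by rw [g i (Or.inl hi), h1 i hi],
        fun i hi => by rw [g i (Or.inr hi), h2 i hi]⟩
  have hyp : IndepSets {shp k A} C perc := by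
    rw [IndepSets_iff]
    rintro t1 t2 h1 ⟨S, d, rfl⟩
    rw [Set.mem_singleton_iff] at h1
    subst h1
    have h := indep_fin hk hA hI S d
    have e1 : ∀ E : Set Conf, perc E = ENNReal.ofReal (perc.real E) := fun E => by
      rw [measureReal_def, ENNReal.ofReal_toReal (measure_ne_top _ _)]
    rw [e1, h, e1 (shp k A), e1 {ω | ∀ i ∈ S, DD a b ω i = d i},
      ENNReal.ofReal_mul measureReal_nonneg]
  have hind := IndepSets.indep' (μ := perc) (by
    intro s hs
    rw [Set.mem_singleton_iff] at hs
    rw [hs]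
    exact measurableSet_shp k hA) hmC (IsPiSystem.singleton (shp k A)) hpi hyp
  rw [Indep_iff] at hind
  have hm : MeasurableSet[MeasurableSpace.generateFrom C] {ω | (fun i => DD a b ω i) ∈ B} := by
    have h1 : @Measurable Conf (Fin 3 × ℕ → ℤ) (MeasurableSpace.generateFrom C) _
        (fun ω => fun i => DD a b ω i) := by
      refine @measurable_pi_lambda Conf (Fin 3 × ℕ) (fun _ => ℤ) (MeasurableSpace.generateFrom C)
        _ _ fun i => ?_
      refine @measurable_to_countable' ℤ Conf _ _ (MeasurableSpace.generateFrom C) _ fun n => ?_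
      refine MeasurableSpace.measurableSet_generateFrom ⟨{i}, fun _ => n, ?_⟩
      ext ω
      simp
    exact h1 hB
  have h := hind (shp k A) {ω | (fun i => DD a b ω i) ∈ B}
    (MeasurableSpace.measurableSet_generateFrom (Set.mem_singleton _)) hm
  rw [measureReal_def, h, ENNReal.toReal_mul, measureReal_def, measureReal_def]

/-- the law of the states in the coordinates of the slit, in all environments -/
theorem shp_SI_eq {h g : ℤ → I} (hn : Nondeg h g) {a b k : ℕ} (hk : a = 2 * k + 1) (hb : Odd b)
    (E : Set Tri) :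
    (percP (pHG h g)).real (shp k {ω : Conf | SI a b ω ∈ E}) =
      perc.real (shp k {ω : Conf | SI a b ω ∈ E}) := by
  have ha : Odd a := ⟨k, hk⟩
  have h1 := lay_hg (b := b) hk h g hn.h_pair hn.g_pair
  have h2 := percP_SI_eq h1 (elP_of hn.h_pair hn.h_down) (elF_of hn.h_pair hn.h_up)
    (elF_of hn.g_pair hn.g_up) ha hb E
  unfold shp
  rw [perc_map, ← h2]
  rw [← percP_map (sh (k + 1) (-k)) (fun i => pHG h g ((sh (k + 1) (-k)).symm i))]
  simp only [Equiv.symm_apply_apply]

end Pool.Agent.H29.EU
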