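import Pool.Agent.H29.EU.Indep

/-!
The states of the three parts of the slit strip in terms of open paths.
-/

set_option autoImplicit false

namespace Pool.Agent.H29.EU

open Pool.Agent.H988R2.Perc Finset MeasureTheory ProbabilityTheory unitInterval Filter Topology
open Pool.Agent.H980R3.Slit Pool.Agent.H863R4
open Q292.Env Relation

/-- the vertices of the part `l` of the slit strip -/
def Part (a b : ℕ) (l : Fin 3) (x : ℤ × ℤ) : Prop :=
  if l = 0 then -(a:ℤ) ≤ x.1 - x.2 ∧ x.1 - x.2 ≤ b + 1 ∧ x.1 + x.2 ≤ 0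
  else if l = 1 then -(a:ℤ) ≤ x.1 - x.2 ∧ x.1 - x.2 ≤ 0 ∧ 0 ≤ x.1 + x.2
  else 1 ≤ x.1 - x.2 ∧ x.1 - x.2 ≤ b + 1 ∧ 0 ≤ x.1 + x.2

/-- the column of the right side of the part -/
def side (b : ℕ) (l : Fin 3) : ℤ := if l = 1 then 0 else b + 1

/-- joined by an open edge of the part, or both on its right side -/
def Link (a b : ℕ) (ω : Conf) (l : Fin 3) (x y : ℤ × ℤ) : Prop :=
  Part a b l x ∧ Part a b l y ∧ (OpenAdj ω x y ∨ (x.1 - x.2 = side b l ∧ y.1 - y.2 = side b l))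

/-- the states of the three parts -/
def state (a b : ℕ) (ω : Conf) (l : Fin 3) (c d : ℤ) : Prop :=
  ReflTransGen (Link a b ω l) (c, -c) (d, -d)

theorem link_symm {a b : ℕ} {ω : Conf} {l : Fin 3} {x y : ℤ × ℤ} (h : Link a b ω l x y) :
    Link a b ω l y x := by
  obtain ⟨h1, h2, h3 | h3⟩ := h
  · exact ⟨h2, h1, Or.inl (T22.openAdj_symm h3)⟩
  · exact ⟨h2, h1, Or.inr ⟨h3.2, h3.1⟩⟩

theorem rtg_cases {a b : ℕ} {ω : Conf} {l : Fin 3} {x y : ℤ × ℤ}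
    (h : ReflTransGen (Link a b ω l) x y) : x = y ∨ (Part a b l x ∧ Part a b l y) := by
  induction h with
  | refl => exact Or.inl rfl
  | tail _ h2 ih =>
    rcases ih with ih | ih
    · rw [ih]; exact Or.inr ⟨h2.1, h2.2.1⟩
    · exact Or.inr ⟨ih.1, h2.2.1⟩

/-! ### tile coordinates -/

/-- the tile coordinates of a vertex -/
def tT (a : ℕ) (x : ℤ × ℤ) : ℤ × ℤ := (x.1 - x.2 + a, x.1 + x.2)

/-- the vertex of a point in tile coordinates -/
def tV (a : ℕ) (p : ℤ × ℤ) : ℤ × ℤ := ((p.1 - a + p.2) / 2, (p.2 - p.1 + a) / 2)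

theorem tV_tT (a : ℕ) (x : ℤ × ℤ) : tV a (tT a x) = x := by
  unfold tV tT
  apply Prod.ext <;> dsimp only <;> omega

/-- the part in tile coordinates -/
def TP (a b : ℕ) (l : Fin 3) (p : ℤ × ℤ) : Prop :=
  if l = 0 then 0 ≤ p.1 ∧ p.1 ≤ a + b + 1 ∧ p.2 ≤ 0
  else if l = 1 then 0 ≤ p.1 ∧ p.1 ≤ a ∧ 0 ≤ p.2
  else (a:ℤ) + 1 ≤ p.1 ∧ p.1 ≤ a + b + 1 ∧ 0 ≤ p.2

/-- the right side in tile coordinates -/
def ts (a b : ℕ) (l : Fin 3) : ℤ := if l = 1 then a else (a:ℤ) + b + 1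

theorem ts_eq (a b : ℕ) (l : Fin 3) : ts a b l = side b l + a := by
  unfold ts side
  split_ifs <;> ring

theorem part_iff {a b : ℕ} {l : Fin 3} {x : ℤ × ℤ} : Part a b l x ↔ TP a b l (tT a x) := by
  unfold Part TP tT
  split_ifs <;> dsimp only <;> omega

theorem part_tV {a b : ℕ} (ha : Odd a) {l : Fin 3} {p : ℤ × ℤ} (hp : (p.1 + p.2) % 2 = 1)
    (h : TP a b l p) : Part a b l (tV a p) := by
  obtain ⟨k, hk⟩ := ha
  unfold TP at h
  unfold Part tV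
  split_ifs at h ⊢ <;> dsimp only <;> omega

theorem col_tV {a : ℕ} (ha : Odd a) {p : ℤ × ℤ} (hp : (p.1 + p.2) % 2 = 1) :
    (tV a p).1 - (tV a p).2 = p.1 - a := by
  obtain ⟨k, hk⟩ := ha
  unfold tV
  dsimp only
  omega

theorem open_tV {a k : ℕ} (hk : a = 2 * k + 1) {ω : Conf} {p p' : ℤ × ℤ}
    (hp : (p.1 + p.2) % 2 = 1) (hp' : (p'.1 + p'.2) % 2 = 1)
    (h : OpenAdj (shc k ω) (T22.toZ p) (T22.toZ p')) : OpenAdj ω (tV a p) (tV a p') := by
  have hkz : (a:ℤ) = 2 * k + 1 := by exact_mod_cast hk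
  rw [← openAdj_sh ((k:ℤ) + 1) (-(k:ℤ)) ω]
  have e1 : ((tV a p).1 + ((k:ℤ) + 1), (tV a p).2 + -(k:ℤ)) = T22.toZ p := by
    unfold tV T22.toZ
    apply Prod.ext <;> dsimp only <;> omega
  have e2 : ((tV a p').1 + ((k:ℤ) + 1), (tV a p').2 + -(k:ℤ)) = T22.toZ p' := by
    unfold tV T22.toZ
    apply Prod.ext <;> dsimp only <;> omega
  rw [e1, e2]
  exact h

theorem el_cases {a b M : ℕ} {l : Fin 3} {ω : Conf} {p p' : ℤ × ℤ} (h : EL a b l M ω p p') :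
    (OpenAdj ω (T22.toZ p) (T22.toZ p') ∧ (p.1 + p.2) % 2 = 1 ∧ (p'.1 + p'.2) % 2 = 1 ∧
      TP a b l p ∧ TP a b l p') ∨ (p.1 = ts a b l ∧ p'.1 = ts a b l) := by
  have key : ∀ lo hi t0 t1 : ℤ, 1 ≤ lo → hi ≤ a + b + 1 → -(2 * (M:ℤ)) ≤ t0 → t1 ≤ 2 * M →
      GP lo hi t0 t1 ω p p' → OpenAdj ω (T22.toZ p) (T22.toZ p') := by
    rintro lo hi t0 t1 h1 h2 h3 h4 ⟨i, r, g1, g2, g3, g4, g5, g6⟩
    exact T22.gadj_open (L := a+b+1) (M := M) ⟨i, r, by omega, by push_cast; omega, by omega,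
      by omega, g5, g6⟩
  unfold EL at h
  unfold TP ts
  split_ifs at h ⊢ with c1 c2
  · omega
  · rcases h with h | h
    · left
      refine ⟨key _ _ _ _ (by omega) (by omega) (by omega) (by omega) h, ?_⟩
      obtain ⟨f1, f2, f3, f4, f5, f6, f7, f8, f9⟩ := C05.gp_facts h
      exact ⟨f4, f5, ⟨by omega, by omega, by omega⟩, ⟨by omega, by omega, by omega⟩⟩
    · exact Or.inr h
  · rcases h with h | h
    · left
      refine ⟨key _ _ _ _ (by omega) (by omega) (by omega) (by omega) h, ?_⟩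
      obtain ⟨f1, f2, f3, f4, f5, f6, f7, f8, f9⟩ := C05.gp_facts h
      exact ⟨f4, f5, ⟨by omega, by omega, by omega⟩, ⟨by omega, by omega, by omega⟩⟩
    · exact Or.inr ⟨h.1, h.2.1⟩
  · rcases h with h | h
    · left
      refine ⟨key _ _ _ _ (by omega) (by omega) (by omega) (by omega) h, ?_⟩
      obtain ⟨f1, f2, f3, f4, f5, f6, f7, f8, f9⟩ := C05.gp_facts h
      exact ⟨f4, f5, ⟨by omega, by omega, by omega⟩, ⟨by omega, by omega, by omega⟩⟩
    · exact Or.inr h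

theorem gadj_el {a b M : ℕ} {l : Fin 3} {ω : Conf} {p p' : ℤ × ℤ} (h : GAdj (a+b+1) M ω p p')
    (hp : TP a b l p) (hp' : TP a b l p') : EL a b l M ω p p' := by
  obtain ⟨i, r, h1, h2, h3, h4, h5, h6⟩ := h
  push_cast at h2
  unfold TP at hp hp'
  unfold EL
  split_ifs at hp hp' ⊢ with c1 c2
  · refine Or.inl ⟨i, r, h1, h2, h3, ?_, h5, h6⟩
    rcases h6 with ⟨g1, g2, g3⟩ | ⟨g1, g2, g3⟩ <;> rw [g3] at hp' <;> dsimp only at hp' <;> omega
  · refine Or.inl ⟨i, r, h1, ?_, ?_, h4, h5, h6⟩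
    · rcases h6 with ⟨g1, g2, g3⟩ | ⟨g1, g2, g3⟩ <;> rw [g2] at hp <;> rw [g3] at hp' <;>
        dsimp only at hp hp' <;> omega
    · rcases h6 with ⟨g1, g2, g3⟩ | ⟨g1, g2, g3⟩ <;> rw [g2] at hp <;> dsimp only at hp <;> omega
  · refine Or.inl ⟨i, r, ?_, h2, ?_, h4, h5, h6⟩
    · rcases h6 with ⟨g1, g2, g3⟩ | ⟨g1, g2, g3⟩ <;> rw [g2] at hp <;> rw [g3] at hp' <;>
        dsimp only at hp hp' <;> omega
    · rcases h6 with ⟨g1, g2, g3⟩ | ⟨g1, g2, g3⟩ <;> rw [g2] at hp <;> dsimp only at hp <;> omega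

theorem open_gadj {L M : ℕ} {ω : Conf} {x y : ℤ × ℤ} (h : OpenAdj ω x y)
    (hx0 : 0 ≤ x.1 - x.2) (hx : x.1 - x.2 ≤ L) (hy0 : 0 ≤ y.1 - y.2) (hy : y.1 - y.2 ≤ L)
    (hM : |x.1 + x.2| + |y.1 + y.2| + 1 ≤ M) :
    GAdj L M ω (x.1 - x.2, x.1 + x.2 - 1) (y.1 - y.2, y.1 + y.2 - 1) ∨
      GAdj L M ω (y.1 - y.2, y.1 + y.2 - 1) (x.1 - x.2, x.1 + x.2 - 1) := by
  have hb1 := abs_le.mp (le_refl |x.1 + x.2|)
  have hb2 := abs_le.mp (le_refl |y.1 + y.2|)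
  obtain ⟨x1, x2⟩ := x
  obtain ⟨y1, y2⟩ := y
  dsimp only at *
  rcases h with ⟨e, h⟩ | ⟨e, h⟩ | ⟨e, h⟩ | ⟨e, h⟩
  · simp only [Prod.mk.injEq] at e
    obtain ⟨rfl, rfl⟩ := e
    exact Or.inl (T22.gadj_h L M ω _ _ h (by omega) (by omega) (by omega) (by omega))
  · simp only [Prod.mk.injEq] at e
    obtain ⟨rfl, rfl⟩ := e
    exact Or.inr (T22.gadj_h L M ω _ _ h (by omega) (by omega) (by omega) (by omega))
  · simp only [Prod.mk.injEq] at e
    obtain ⟨rfl, rfl⟩ := e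
    exact Or.inl (T22.gadj_v L M ω _ _ h (by omega) (by omega) (by omega) (by omega))
  · simp only [Prod.mk.injEq] at e
    obtain ⟨rfl, rfl⟩ := e
    exact Or.inr (T22.gadj_v L M ω _ _ h (by omega) (by omega) (by omega) (by omega))

/-- a step of the part is a connection of a large window -/
theorem link_el {a b k : ℕ} (hk : a = 2 * k + 1) {ω : Conf} {l : Fin 3} {x y : ℤ × ℤ}
    (h : Link a b ω l x y) : ∃ M0 : ℕ, ∀ M : ℕ, M0 ≤ M →
      EqvGen (EL a b l M (shc k ω)) (tT a x) (tT a y) := by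
  have hkz : (a:ℤ) = 2 * k + 1 := by exact_mod_cast hk
  obtain ⟨h1, h2, h3 | ⟨h3, h4⟩⟩ := h
  · have h5 : OpenAdj (shc k ω) (x.1 + ((k:ℤ) + 1), x.2 + -(k:ℤ)) (y.1 + ((k:ℤ) + 1), y.2 + -(k:ℤ)) :=
      (openAdj_sh ((k:ℤ) + 1) (-(k:ℤ)) ω x y).2 h3
    have p1 := part_iff.1 h1
    have p2 := part_iff.1 h2
    have c1 : 0 ≤ (tT a x).1 ∧ (tT a x).1 ≤ a + b + 1 := by
      unfold TP at p1
      split_ifs at p1 <;> omega
    have c2 : 0 ≤ (tT a y).1 ∧ (tT a y).1 ≤ a + b + 1 := by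
      unfold TP at p2
      split_ifs at p2 <;> omega
    unfold tT at c1 c2
    dsimp only at c1 c2
    refine ⟨(|x.1 + ((k:ℤ) + 1) + (x.2 + -(k:ℤ))| + |y.1 + ((k:ℤ) + 1) + (y.2 + -(k:ℤ))| + 1).toNat,
      fun M hM => ?_⟩
    have hM' : |x.1 + ((k:ℤ) + 1) + (x.2 + -(k:ℤ))| + |y.1 + ((k:ℤ) + 1) + (y.2 + -(k:ℤ))| + 1
        ≤ (M:ℤ) := by
      have := Int.self_le_toNat
        (|x.1 + ((k:ℤ) + 1) + (x.2 + -(k:ℤ))| + |y.1 + ((k:ℤ) + 1) + (y.2 + -(k:ℤ))| + 1)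
      omega
    have h6 := open_gadj (L := a+b+1) (M := M) h5 (by dsimp only; omega)
      (by dsimp only; push_cast; omega) (by dsimp only; omega) (by dsimp only; push_cast; omega)
      (by dsimp only; exact hM')
    have e1 : ((x.1 + ((k:ℤ) + 1)) - (x.2 + -(k:ℤ)), (x.1 + ((k:ℤ) + 1)) + (x.2 + -(k:ℤ)) - 1) =
        tT a x := by
      unfold tT
      apply Prod.ext <;> dsimp only <;> omega
    have e2 : ((y.1 + ((k:ℤ) + 1)) - (y.2 + -(k:ℤ)), (y.1 + ((k:ℤ) + 1)) + (y.2 + -(k:ℤ)) - 1) =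
        tT a y := by
      unfold tT
      apply Prod.ext <;> dsimp only <;> omega
    dsimp only at h6
    rw [e1, e2] at h6
    rcases h6 with h6 | h6
    · exact EqvGen.rel _ _ (gadj_el h6 p1 p2)
    · exact EqvGen.symm _ _ (EqvGen.rel _ _ (gadj_el h6 p2 p1))
  · refine ⟨0, fun M _ => EqvGen.rel _ _ ?_⟩
    have p1 := part_iff.1 h1
    have p2 := part_iff.1 h2
    have s := ts_eq a b l
    have t1 : (tT a x).1 = ts a b l := by unfold tT; dsimp only; omega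
    have t2 : (tT a y).1 = ts a b l := by unfold tT; dsimp only; omega
    unfold EL TP ts at *
    split_ifs at * with c1 c2 c3
    · omega
    · exact Or.inr ⟨t1, t2⟩
    · exact Or.inr ⟨t1, t2, p1.2.2, p2.2.2⟩
    · exact Or.inr ⟨t1, t2⟩

/-- paths of the part are connections of the windows -/
theorem rtg_el {a b k : ℕ} (hk : a = 2 * k + 1) {ω : Conf} {l : Fin 3} {x y : ℤ × ℤ}
    (h : ReflTransGen (Link a b ω l) x y) : ∃ M : ℕ,
      EqvGen (EL a b l M (shc k ω)) (tT a x) (tT a y) := by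
  induction h with
  | refl => exact ⟨0, EqvGen.refl _⟩
  | tail _ h2 ih =>
    obtain ⟨M, hM⟩ := ih
    obtain ⟨M', hM'⟩ := link_el hk h2
    exact ⟨max M M', (hM.mono fun _ _ => EL_mono (le_max_left _ _)).trans _ _ _
      (hM' _ (le_max_right _ _))⟩

/-- connections of the windows are paths of the part -/
theorem el_rtg {a b k : ℕ} (hk : a = 2 * k + 1) {ω : Conf} {l : Fin 3} {M : ℕ} {x y : ℤ × ℤ}
    (hx : Part a b l x) (hy : Part a b l y) (h : EqvGen (EL a b l M (shc k ω)) (tT a x) (tT a y)) :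
    ReflTransGen (Link a b ω l) x y := by
  have ha : Odd a := ⟨k, hk⟩
  have hs := ts_eq a b l
  let P : ℤ × ℤ → Prop := fun p =>
    ((p.1 + p.2) % 2 = 1 ∧ TP a b l p ∧ ReflTransGen (Link a b ω l) x (tV a p)) ∨
    (p.1 = ts a b l ∧ ∃ w, Part a b l w ∧ w.1 - w.2 = side b l ∧ ReflTransGen (Link a b ω l) x w)
  -- a point which is a vertex of the part
  have up : ∀ p : ℤ × ℤ, (p.1 + p.2) % 2 = 1 → TP a b l p → P p →
      ReflTransGen (Link a b ω l) x (tV a p) := by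
    rintro p h1 h2 (⟨_, _, h3⟩ | ⟨h3, w, h4, h5, h6⟩)
    · exact h3
    · refine h6.tail ⟨h4, part_tV ha h1 h2, Or.inr ⟨h5, ?_⟩⟩
      rw [col_tV ha h1]
      omega
  have step : ∀ p p' : ℤ × ℤ, EL a b l M (shc k ω) p p' → (P p ↔ P p') := by
    intro p p' h
    rcases el_cases h with ⟨h1, h2, h3, h4, h5⟩ | ⟨h1, h2⟩
    · have ho := open_tV hk h2 h3 h1
      constructor
      · intro hP
        exact Or.inl ⟨h3, h5, (up p h2 h4 hP).tail
          ⟨part_tV ha h2 h4, part_tV ha h3 h5, Or.inl ho⟩⟩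
      · intro hP
        exact Or.inl ⟨h2, h4, (up p' h3 h5 hP).tail
          ⟨part_tV ha h3 h5, part_tV ha h2 h4, Or.inl (T22.openAdj_symm ho)⟩⟩
    · constructor
      · rintro (⟨g1, g2, g3⟩ | ⟨_, g3⟩)
        · refine Or.inr ⟨h2, tV a p, part_tV ha g1 g2, ?_, g3⟩
          rw [col_tV ha g1]; omega
        · exact Or.inr ⟨h2, g3⟩
      · rintro (⟨g1, g2, g3⟩ | ⟨_, g3⟩)
        · refine Or.inr ⟨h1, tV a p', part_tV ha g1 g2, ?_, g3⟩
          rw [col_tV ha g1]; omega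
        · exact Or.inr ⟨h1, g3⟩
  obtain ⟨k', hk'⟩ := id ha
  have par : ∀ z : ℤ × ℤ, ((tT a z).1 + (tT a z).2) % 2 = 1 := by
    intro z
    unfold tT
    dsimp only
    omega
  have hPx : P (tT a x) := Or.inl ⟨par x, part_iff.1 hx, by rw [tV_tT]⟩
  have hPy := (T22.eqvGen_iff P step h).1 hPx
  have := up (tT a y) (par y) (part_iff.1 hy) hPy
  rwa [tV_tT] at this

/-- the face of a vertex of the section -/
def fc (a : ℕ) (l : Fin 3) (c : ℤ) : ℕ := (2 * c + a - sf a l).toNat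

/-- the position of the vertex `c` of the section -/
def Rg (a b : ℕ) (l : Fin 3) (c : ℤ) : Prop := Part a b l (c, -c)

theorem fc_facts {a b : ℕ} (ha : Odd a) (hb : Odd b) {l : Fin 3} {c : ℤ} (h : Rg a b l c) :
    fc a l c % 2 = 1 ∧ fc a l c ≤ wd a b l ∧ ((fc a l c : ℤ) + sf a l, (0:ℤ)) = tT a (c, -c) := by
  obtain ⟨k, hk⟩ := ha
  obtain ⟨k', hk'⟩ := hb
  unfold Rg Part at h
  unfold fc wd tT sf
  refine ⟨?_, ?_, ?_⟩
  · fin_cases l <;> simp at h ⊢ <;> omega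
  · fin_cases l <;> simp at h ⊢ <;> omega
  · apply Prod.ext
    · fin_cases l <;> simp at h ⊢ <;> omega
    · simp

/-- the translation of the states -/
def Th (a b : ℕ) (r : Tri) (l : Fin 3) (c d : ℤ) : Prop :=
  c = d ∨ (Rg a b l c ∧ Rg a b l d ∧ r l (fc a l c) (fc a l d))

/-- **the dictionary** -/
theorem state_eq {a b k : ℕ} (hk : a = 2 * k + 1) (hb : Odd b) (ω : Conf) :
    state a b ω = Th a b (SI a b (shc k ω)) := by
  have ha : Odd a := ⟨k, hk⟩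
  funext l c d
  apply propext
  constructor
  · intro h
    rcases rtg_cases h with h1 | ⟨h1, h2⟩
    · left
      exact congrArg Prod.fst h1
    · right
      refine ⟨h1, h2, ?_⟩
      obtain ⟨M, hM⟩ := rtg_el hk h
      obtain ⟨f1, f2, f3⟩ := fc_facts ha hb (l := l) (c := c) h1
      obtain ⟨g1, g2, g3⟩ := fc_facts ha hb (l := l) (c := d) h2
      refine ⟨M, (SW_iff ha hb M _ l f1 g1 f2 g2).2 ?_⟩
      rw [f3, g3]
      exact hM
  · rintro (h | ⟨h1, h2, M, hM⟩)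
    · rw [h]; exact ReflTransGen.refl
    · obtain ⟨f1, f2, f3⟩ := fc_facts ha hb (l := l) (c := c) h1
      obtain ⟨g1, g2, g3⟩ := fc_facts ha hb (l := l) (c := d) h2
      rw [SW_iff ha hb M _ l f1 g1 f2 g2, f3, g3] at hM
      exact el_rtg hk h1 h2 hM

theorem state_set {a b k : ℕ} (hk : a = 2 * k + 1) (hb : Odd b)
    (E : Set (Fin 3 → ℤ → ℤ → Prop)) :
    {ω : Conf | state a b ω ∈ E} = shp k {ω : Conf | SI a b ω ∈ {r | Th a b r ∈ E}} := by
  ext ω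
  rw [Set.mem_ofPred_eq, state_eq hk hb ω]
  rfl

/-- **exact universality of the states** -/
theorem state_univ {h g : ℤ → I} (hn : Nondeg h g) {a b : ℕ} (ha : Odd a) (hb : Odd b)
    (E : Set (Fin 3 → ℤ → ℤ → Prop)) :
    (percP (pHG h g)).real {ω : Conf | state a b ω ∈ E} = perc.real {ω : Conf | state a b ω ∈ E} := by
  obtain ⟨k, hk⟩ := ha
  rw [state_set hk hb]
  exact shp_SI_eq hn hk hb _

/-- **exact independence of the states and of the differences of the anisotropies** -/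
theorem state_indep {a b : ℕ} (ha : Odd a) (hb : Odd b) (E : Set (Fin 3 → ℤ → ℤ → Prop))
    (B : Set (Fin 3 × ℕ → ℤ)) (hB : MeasurableSet B) :
    perc.real ({ω : Conf | state a b ω ∈ E} ∩ {ω | (fun i => DD a b ω i) ∈ B}) =
      perc.real {ω : Conf | state a b ω ∈ E} * perc.real {ω | (fun i => DD a b ω i) ∈ B} := by
  obtain ⟨k, hk⟩ := id ha
  rw [state_set hk hb]
  exact indep_all' hk (measurableSet_SI ha hb _) (inv_SI ha hb _) B hB

end Pool.Agent.H29.EU
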