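import Pool.Graph.R_pool_sql_team_seeded_3997aac3.Q292.Env.Indep2

/-!
The trilinear pairing of three vectors of states with an arbitrary predicate on triples of states,
and the convergence of the probability of a window event of the slit strip.
-/

set_option autoImplicit false

namespace Pool.Agent.H29.EU

open Pool.Agent.H988R2.Perc Finset MeasureTheory ProbabilityTheory unitInterval Filter Topology
open Pool.Agent.H980R3.Slit
open Pool.Agent.H988R2.Perc.T23 (bits SS mem_SS)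
open Q292.Env

open Classical in
/-- the pairing with the predicate `G` -/
noncomputable def pairG (G : St → St → St → Prop) (f g h : St →₀ ℂ) : ℂ :=
  f.sum fun R α => g.sum fun R1 β => h.sum fun R2 γ =>
    α * β * γ * (if G R R1 R2 then 1 else 0)

variable (G : St → St → St → Prop)

theorem add1 (f f' g h : St →₀ ℂ) :
    pairG G (f + f') g h = pairG G f g h + pairG G f' g h := by
  classical
  unfold pairG
  refine Finsupp.sum_add_index' (fun R => by simp) (fun R x y => ?_)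
  rw [← Finsupp.sum_add]
  refine Finsupp.sum_congr fun R1 _ => ?_
  rw [← Finsupp.sum_add]
  refine Finsupp.sum_congr fun R2 _ => ?_
  ring

theorem add2 (f g g' h : St →₀ ℂ) :
    pairG G f (g + g') h = pairG G f g h + pairG G f g' h := by
  classical
  unfold pairG
  rw [← Finsupp.sum_add]
  refine Finsupp.sum_congr fun R _ => ?_
  refine Finsupp.sum_add_index' (fun R => by simp) (fun R x y => ?_)
  rw [← Finsupp.sum_add]
  refine Finsupp.sum_congr fun R2 _ => ?_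
  ring

theorem add3 (f g h h' : St →₀ ℂ) :
    pairG G f g (h + h') = pairG G f g h + pairG G f g h' := by
  classical
  unfold pairG
  rw [← Finsupp.sum_add]
  refine Finsupp.sum_congr fun R _ => ?_
  rw [← Finsupp.sum_add]
  refine Finsupp.sum_congr fun R1 _ => ?_
  refine Finsupp.sum_add_index' (fun R => by simp) (fun R x y => ?_)
  ring

theorem bound (f g h : St →₀ ℂ) :
    ‖pairG G f g h‖ ≤ T24.nrm f * T24.nrm g * T24.nrm h := by
  classical
  unfold pairG T24.nrm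
  rw [mul_assoc, Finsupp.sum, Finsupp.sum, Finset.sum_mul]
  refine (norm_sum_le _ _).trans (Finset.sum_le_sum fun R _ => ?_)
  rw [Finsupp.sum, Finsupp.sum, Finset.sum_mul, Finset.mul_sum]
  refine (norm_sum_le _ _).trans (Finset.sum_le_sum fun R1 _ => ?_)
  rw [Finsupp.sum, Finsupp.sum, Finset.mul_sum, Finset.mul_sum]
  refine (norm_sum_le _ _).trans (Finset.sum_le_sum fun R2 _ => ?_)
  rw [norm_mul, norm_mul, norm_mul]
  have : ‖(if G R R1 R2 then (1:ℂ) else 0)‖ ≤ 1 := by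
    split_ifs <;> simp
  calc ‖f R‖ * ‖g R1‖ * ‖h R2‖ * ‖(if G R R1 R2 then (1:ℂ) else 0)‖
      ≤ ‖f R‖ * ‖g R1‖ * ‖h R2‖ * 1 :=
        mul_le_mul_of_nonneg_left this (by positivity)
    _ = ‖f R‖ * (‖g R1‖ * ‖h R2‖) := by ring

theorem pairG_tendsto {f0 f1 f2 : ℕ → St →₀ ℂ} {w0 w1 w2 : St →₀ ℂ}
    (h0 : Tendsto (fun M => T24.nrm (f0 M + (-1 : ℂ) • w0)) atTop (𝓝 0))
    (h1 : Tendsto (fun M => T24.nrm (f1 M + (-1 : ℂ) • w1)) atTop (𝓝 0))
    (h2 : Tendsto (fun M => T24.nrm (f2 M + (-1 : ℂ) • w2)) atTop (𝓝 0)) :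
    Tendsto (fun M => pairG G (f0 M) (f1 M) (f2 M)) atTop (𝓝 (pairG G w0 w1 w2)) := by
  rw [tendsto_iff_norm_sub_tendsto_zero]
  have hF : Tendsto (fun M => T24.nrm (f0 M + (-1 : ℂ) • w0) *
      (T24.nrm (f1 M + (-1 : ℂ) • w1) + T24.nrm w1) * (T24.nrm (f2 M + (-1 : ℂ) • w2) + T24.nrm w2)
      + T24.nrm w0 * T24.nrm (f1 M + (-1 : ℂ) • w1) * (T24.nrm (f2 M + (-1 : ℂ) • w2) + T24.nrm w2)
      + T24.nrm w0 * T24.nrm w1 * T24.nrm (f2 M + (-1 : ℂ) • w2)) atTop
      (𝓝 (0 * (0 + T24.nrm w1) * (0 + T24.nrm w2) + T24.nrm w0 * 0 * (0 + T24.nrm w2)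
        + T24.nrm w0 * T24.nrm w1 * 0)) :=
    (((h0.mul (h1.add_const _)).mul (h2.add_const _)).add
      ((h1.const_mul _).mul (h2.add_const _))).add (h2.const_mul _)
  have hz : (0 * (0 + T24.nrm w1) * (0 + T24.nrm w2) + T24.nrm w0 * 0 * (0 + T24.nrm w2)
        + T24.nrm w0 * T24.nrm w1 * 0) = 0 := by ring
  rw [hz] at hF
  refine squeeze_zero (fun _ => norm_nonneg _) (fun M => ?_) hF
  set d0 := f0 M + (-1 : ℂ) • w0 with hd0
  set d1 := f1 M + (-1 : ℂ) • w1 with hd1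
  set d2 := f2 M + (-1 : ℂ) • w2 with hd2
  have e0 : f0 M = d0 + w0 := by rw [hd0]; simp
  have e1 : f1 M = d1 + w1 := by rw [hd1]; simp
  have e2 : f2 M = d2 + w2 := by rw [hd2]; simp
  have e : pairG G (f0 M) (f1 M) (f2 M) - pairG G w0 w1 w2 =
      pairG G d0 (f1 M) (f2 M) + pairG G w0 d1 (f2 M) + pairG G w0 w1 d2 := by
    rw [e0, add1, e1, add2 G w0, e2, add3 G w0 w1]
    ring
  rw [e]
  have n1 := bound G d0 (f1 M) (f2 M)
  have n2 := bound G w0 d1 (f2 M)
  have n3 := bound G w0 w1 d2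
  have k1 : T24.nrm (f1 M) ≤ T24.nrm d1 + T24.nrm w1 := by rw [e1]; exact T24.nrm_add_le _ _
  have k2 : T24.nrm (f2 M) ≤ T24.nrm d2 + T24.nrm w2 := by rw [e2]; exact T24.nrm_add_le _ _
  have p0 := T24.nrm_nonneg d0
  have p1 := T24.nrm_nonneg d1
  have p2 := T24.nrm_nonneg d2
  have q0 := T24.nrm_nonneg w0
  have q1 := T24.nrm_nonneg w1
  have q2 := T24.nrm_nonneg w2
  have r1 := T24.nrm_nonneg (f1 M)
  have r2 := T24.nrm_nonneg (f2 M)
  have s1 : T24.nrm d0 * T24.nrm (f1 M) * T24.nrm (f2 M) ≤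
      T24.nrm d0 * (T24.nrm d1 + T24.nrm w1) * (T24.nrm d2 + T24.nrm w2) :=
    mul_le_mul (mul_le_mul_of_nonneg_left k1 p0) k2 r2 (by positivity)
  have s2 : T24.nrm w0 * T24.nrm d1 * T24.nrm (f2 M) ≤
      T24.nrm w0 * T24.nrm d1 * (T24.nrm d2 + T24.nrm w2) :=
    mul_le_mul_of_nonneg_left k2 (by positivity)
  calc ‖pairG G d0 (f1 M) (f2 M) + pairG G w0 d1 (f2 M) + pairG G w0 w1 d2‖
      ≤ ‖pairG G d0 (f1 M) (f2 M)‖ + ‖pairG G w0 d1 (f2 M)‖ + ‖pairG G w0 w1 d2‖ :=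
        norm_add₃_le
    _ ≤ _ := by linarith

open Classical in
theorem pairG_sum (P0 P1 P2 : Finset (Finset (ℕ × ℕ)))
    (R0 R1 R2 : Finset (ℕ × ℕ) → St) (w0 w1 w2 : Finset (ℕ × ℕ) → ℂ) :
    pairG G (∑ t ∈ P0, Finsupp.single (R0 t) (w0 t)) (∑ t ∈ P1, Finsupp.single (R1 t) (w1 t))
      (∑ t ∈ P2, Finsupp.single (R2 t) (w2 t)) =
    ∑ t0 ∈ P0, ∑ t1 ∈ P1, ∑ t2 ∈ P2,
      (if G (R0 t0) (R1 t1) (R2 t2) then w0 t0 * w1 t1 * w2 t2 else 0) := by
  have key : ∀ f g h : St →₀ ℂ, pairG G f g h =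
      Finsupp.linearCombination ℂ (fun R => Finsupp.linearCombination ℂ
        (fun R1 => Finsupp.linearCombination ℂ
          (fun R2 => if G R R1 R2 then (1:ℂ) else 0) h) g) f := by
    intro f g h
    unfold pairG
    rw [Finsupp.linearCombination_apply]
    apply Finsupp.sum_congr
    intro x _
    rw [Finsupp.linearCombination_apply, Finsupp.sum, Finsupp.sum, Finset.smul_sum]
    apply Finset.sum_congr rfl
    intro y _
    rw [Finsupp.linearCombination_apply, Finsupp.sum, Finsupp.sum, Finset.smul_sum,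
      Finset.smul_sum]
    apply Finset.sum_congr rfl
    intro w _
    simp only [smul_eq_mul]
    ring
  rw [key, map_sum]
  simp only [Finsupp.linearCombination_single, map_sum, smul_eq_mul, Finset.mul_sum]
  refine Finset.sum_congr rfl fun t0 _ => Finset.sum_congr rfl fun t1 _ =>
    Finset.sum_congr rfl fun t2 _ => ?_
  split_ifs <;> ring

/-- the window event -/
def WinG (a b M : ℕ) : Set Conf :=
  {ω | G (X (a+b+1) (actBit (oPast ω M)) M) (X a (actBit (oFut ω M)) M)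
    (X b (actBit (oFutR a ω M)) M)}

open Classical in
/-- the good cells -/
noncomputable def goodG (a b M : ℕ) : Finset C10.Tr :=
  ((T23.SS (a+b+1) M).powerset ×ˢ ((T23.SS a M).powerset ×ˢ (T23.SS b M).powerset)).filter
    (fun p => G (X (a+b+1) (actBit (T23.bits p.1)) M) (X a (actBit (T23.bits p.2.1)) M)
      (X b (actBit (T23.bits p.2.2)) M))

theorem mem_goodG {a b M : ℕ} {p : C10.Tr} :
    p ∈ goodG G a b M ↔ (p.1 ⊆ T23.SS (a+b+1) M ∧ p.2.1 ⊆ T23.SS a M ∧ p.2.2 ⊆ T23.SS b M) ∧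
      G (X (a+b+1) (actBit (T23.bits p.1)) M) (X a (actBit (T23.bits p.2.1)) M)
        (X b (actBit (T23.bits p.2.2)) M) := by
  classical
  unfold goodG
  rw [Finset.mem_filter, Finset.mem_product, Finset.mem_product, Finset.mem_powerset,
    Finset.mem_powerset, Finset.mem_powerset]

theorem winG_eq (a b M : ℕ) :
    WinG G a b M = ⋃ p ∈ goodG G a b M, cell3 a b M p.1 p.2.1 p.2.2 := by
  ext ω
  simp only [WinG, Set.mem_ofPred_eq, Set.mem_iUnion, exists_prop]
  rw [T23.X_past, T23.X_fut, C10.X_futR]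
  constructor
  · intro h
    refine ⟨(T23.tP (a+b+1) M ω, T23.tF a M ω, tR a b M ω), ?_, rfl, rfl, rfl⟩
    rw [mem_goodG]
    exact ⟨⟨filter_subset _ _, filter_subset _ _, filter_subset _ _⟩, h⟩
  · rintro ⟨⟨p1, p2, p3⟩, hp, h1, h2, h3⟩
    simp only at h1 h2 h3
    subst h1 h2 h3
    rw [mem_goodG] at hp
    exact hp.2

theorem measurableSet_winG (a b M : ℕ) : MeasurableSet (WinG G a b M) := by
  rw [winG_eq]
  refine Finset.measurableSet_biUnion _ fun p hp => ?_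
  obtain ⟨⟨h1, h2, h3⟩, _⟩ := (mem_goodG G).1 hp
  exact (t_C08 a b M p.1 p.2.1 p.2.2 h1 h2 h3).1

open Classical in
theorem sum_goodG (a b M : ℕ) (w0 w1 w2 : Finset (ℕ × ℕ) → ℂ) :
    (∑ t0 ∈ (SS (a+b+1) M).powerset, ∑ t1 ∈ (SS a M).powerset,
        ∑ t2 ∈ (SS b M).powerset,
        (if G (X (a+b+1) (actBit (bits t0)) M) (X a (actBit (bits t1)) M)
          (X b (actBit (bits t2)) M) then w0 t0 * w1 t1 * w2 t2 else 0)) =
      ∑ p ∈ goodG G a b M, w0 p.1 * w1 p.2.1 * w2 p.2.2 := by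
  unfold goodG
  rw [Finset.sum_filter, Finset.sum_product]
  refine Finset.sum_congr rfl fun t0 _ => ?_
  rw [Finset.sum_product]

/-- the probability of the window event -/
theorem percP_winG {a b : ℕ} {p : Edge → I} {y0 y1 y2 : ℤ → I} (hp : Lay a b p y0 y1 y2)
    (ha : Odd a) (M : ℕ) :
    (((percP p).real (WinG G a b M) : ℝ) : ℂ) =
      pairG G (lawY (a+b+1) (cP y0 M) M) (lawY a (cF y1 M) M) (lawY b (cF y2 M) M) := by
  rw [law_eqY, law_eqY, law_eqY, pairG_sum, sum_goodG, winG_eq, measureReal_biUnion_finset]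
  · push_cast
    refine Finset.sum_congr rfl fun p hp' => ?_
    obtain ⟨⟨h1, h2, h3⟩, _⟩ := (mem_goodG G).1 hp'
    rw [percP_cell3 hp ha M _ _ _ h1 h2 h3]
    push_cast
    rfl
  · intro p _ p' _ hne
    rw [Function.onFun, Set.disjoint_left]
    rintro ω ⟨h1, h2, h3⟩ ⟨h4, h5, h6⟩
    exact hne (Prod.ext (h1.symm.trans h4) (Prod.ext (h2.symm.trans h5) (h3.symm.trans h6)))
  · intro p hp'
    obtain ⟨⟨h1, h2, h3⟩, _⟩ := (mem_goodG G).1 hp'
    exact (t_C08 a b M p.1 p.2.1 p.2.2 h1 h2 h3).1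

/-- the limit of the probability of the window event is the same in all layered environments -/
theorem winG_tendsto {a b : ℕ} {p : Edge → I} {y0 y1 y2 : ℤ → I} (hp : Lay a b p y0 y1 y2)
    (h0 : ElP y0) (h1 : ElF y1) (h2 : ElF y2) (ha : Odd a) (hb : Odd b) :
    Tendsto (fun M => (((percP p).real (WinG G a b M) : ℝ) : ℂ)) atTop
      (𝓝 (pairG G (sv (a+b+1)) (sv a) (sv b))) := by
  have hL : Odd (a + b + 1) := (ha.add_odd hb).add_one
  have cP01 : ∀ (y : ℤ → I) M j, cP y M j ∈ Set.Icc (0:ℝ) 1 := fun y M j => (y _).2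
  have cF01 : ∀ (y : ℤ → I) M j, cF y M j ∈ Set.Icc (0:ℝ) 1 := fun y M j => (y _).2
  refine (pairG_tendsto G
    (law_tendsto (a+b+1) hL (fun M => cP y0 M) (cP01 y0) (pastProd y0 h0 _))
    (law_tendsto a ha (fun M => cF y1 M) (cF01 y1) (futProd y1 h1 _))
    (law_tendsto b hb (fun M => cF y2 M) (cF01 y2) (futProd y2 h2 _))).congr fun M => ?_
  rw [percP_winG G hp ha M]

end Pool.Agent.H29.EU
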