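import Pool.Agent.H29.EU.Pair

/-!
The states of the three parts of the slit strip in infinite volume, and the universality of their
joint law.
-/

set_option autoImplicit false

namespace Pool.Agent.H29.EU

open Pool.Agent.H988R2.Perc Finset MeasureTheory ProbabilityTheory unitInterval Filter Topology
open Pool.Agent.H980R3.Slit
open Q292.Env Relation

/-- the type of the triples of relations -/
abbrev Tri := Fin 3 → ℕ → ℕ → Prop

/-- the triple of the relations of three states -/
def tri (R R1 R2 : St) : Tri := fun l x y =>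
  if l = 0 then R.rel x y else if l = 1 then R1.rel x y else R2.rel x y

/-- the states of the three parts of the window -/
def SW (a b M : ℕ) (ω : Conf) : Tri :=
  tri (X (a+b+1) (actBit (oPast ω M)) M) (X a (actBit (oFut ω M)) M) (X b (actBit (oFutR a ω M)) M)

/-- the states in infinite volume -/
def SI (a b : ℕ) (ω : Conf) : Tri := fun l x y => ∃ M, SW a b M ω l x y

/-- the graphs of the three parts -/
def EL (a b : ℕ) (l : Fin 3) (M : ℕ) (ω : Conf) (p p' : ℤ × ℤ) : Prop :=
  if l = 0 then E0 a b M ω p p' else if l = 1 then E1 a M ω p p' else E2 a b M ω p p'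

/-- the widths of the parts -/
def wd (a b : ℕ) (l : Fin 3) : ℕ := if l = 0 then a + b + 1 else if l = 1 then a else b

/-- the shift of the part -/
def sf (a : ℕ) (l : Fin 3) : ℤ := if l = 2 then (a:ℤ) + 1 else 0

theorem EL_mono {a b M M' : ℕ} (hM : M ≤ M') {l : Fin 3} {ω : Conf} {p p' : ℤ × ℤ}
    (h : EL a b l M ω p p') : EL a b l M' ω p p' := by
  unfold EL at h ⊢
  split_ifs at h ⊢
  · rcases h with h | h
    · exact Or.inl (C07.gp_mono (by omega) (le_refl _) h)
    · exact Or.inr h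
  · rcases h with h | h
    · exact Or.inl (C07.gp_mono (le_refl _) (by omega) h)
    · exact Or.inr h
  · rcases h with h | h
    · exact Or.inl (C07.gp_mono (le_refl _) (by omega) h)
    · exact Or.inr h

theorem SW_cases {a b M : ℕ} (ha : Odd a) (hb : Odd b) {ω : Conf} {l : Fin 3} {x y : ℕ}
    (h : SW a b M ω l x y) : x = y ∨ (x % 2 = 1 ∧ y % 2 = 1 ∧ x ≤ wd a b l ∧ y ≤ wd a b l) := by
  have hL : Odd (a + b + 1) := (ha.add_odd hb).add_one
  unfold SW tri at h
  unfold wd
  split_ifs at h ⊢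
  · rcases St.odd _ _ _ h with h1 | h1
    · exact Or.inl h1
    · rcases X_supp _ hL M _ _ _ h with h2 | h2
      · exact Or.inl h2
      · exact Or.inr ⟨h1.1, h1.2, h2.1, h2.2⟩
  · rcases St.odd _ _ _ h with h1 | h1
    · exact Or.inl h1
    · rcases X_supp _ ha M _ _ _ h with h2 | h2
      · exact Or.inl h2
      · exact Or.inr ⟨h1.1, h1.2, h2.1, h2.2⟩
  · rcases St.odd _ _ _ h with h1 | h1
    · exact Or.inl h1
    · rcases X_supp _ hb M _ _ _ h with h2 | h2
      · exact Or.inl h2
      · exact Or.inr ⟨h1.1, h1.2, h2.1, h2.2⟩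

theorem SW_refl (a b M : ℕ) (ω : Conf) (l : Fin 3) (x : ℕ) : SW a b M ω l x x := by
  unfold SW tri
  split_ifs
  · exact (X (a+b+1) (actBit (oPast ω M)) M).eqv.refl x
  · exact (X a (actBit (oFut ω M)) M).eqv.refl x
  · exact (X b (actBit (oFutR a ω M)) M).eqv.refl x

/-- the state in the window is the connectivity of the window -/
theorem SW_iff {a b : ℕ} (ha : Odd a) (hb : Odd b) (M : ℕ) (ω : Conf) (l : Fin 3) {x y : ℕ}
    (hx : x % 2 = 1) (hy : y % 2 = 1) (hx' : x ≤ wd a b l) (hy' : y ≤ wd a b l) :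
    SW a b M ω l x y ↔ EqvGen (EL a b l M ω) ((x:ℤ) + sf a l, 0) ((y:ℤ) + sf a l, 0) := by
  unfold wd at hx' hy'
  have hE : ∀ {P Q : ℤ × ℤ → ℤ × ℤ → Prop} {u v : ℤ × ℤ}, (∀ p p', P p p' ↔ Q p p') →
      (EqvGen P u v ↔ EqvGen Q u v) := by
    intro P Q u v h
    have : P = Q := by funext p p'; exact propext (h p p')
    rw [this]
  fin_cases l
  · simp only [Fin.zero_eta, Fin.isValue, ↓reduceIte] at hx' hy' ⊢
    have h := t_C02 a b M ω x y ha hb hx hy hx' hy'
    have h1 : SW a b M ω 0 x y ↔ (X (a+b+1) (actBit (oPast ω M)) M).rel x y := by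
      unfold SW tri; simp
    rw [h1, h]
    have e : sf a 0 = 0 := by unfold sf; simp
    rw [e, add_zero, add_zero]
    exact hE fun p p' => by unfold EL; simp
  · simp only [Fin.mk_one, Fin.isValue, one_ne_zero, ↓reduceIte] at hx' hy' ⊢
    have h := t_C01 a M ω x y ha hx hy hx' hy'
    have h1 : SW a b M ω 1 x y ↔ (X a (actBit (oFut ω M)) M).rel x y := by
      unfold SW tri; simp
    rw [h1, h]
    have e : sf a 1 = 0 := by unfold sf; simp
    rw [e, add_zero, add_zero]
    exact hE fun p p' => by unfold EL; simp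
  · simp only [Fin.reduceFinMk, Fin.isValue, Fin.reduceEq, ↓reduceIte] at hx' hy' ⊢
    have h := t_C03 a b M ω x y ha hb hx hy hx' hy'
    have h1 : SW a b M ω 2 x y ↔ (X b (actBit (oFutR a ω M)) M).rel x y := by
      unfold SW tri; simp
    rw [h1, h]
    have e : sf a 2 = (a:ℤ) + 1 := by unfold sf; simp
    rw [e]
    exact hE fun p p' => by unfold EL; simp

theorem SW_mono {a b : ℕ} (ha : Odd a) (hb : Odd b) {M M' : ℕ} (hM : M ≤ M') {ω : Conf}
    {l : Fin 3} {x y : ℕ} (h : SW a b M ω l x y) : SW a b M' ω l x y := by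
  rcases SW_cases ha hb h with h1 | ⟨h1, h2, h3, h4⟩
  · rw [h1]; exact SW_refl a b M' ω l y
  · rw [SW_iff ha hb _ _ _ h1 h2 h3 h4] at h ⊢
    exact h.mono fun _ _ => EL_mono hM

/-- the states of the windows are eventually constant -/
theorem SW_eventually {a b : ℕ} (ha : Odd a) (hb : Odd b) (ω : Conf) :
    ∀ᶠ M in atTop, SW a b M ω = SI a b ω := by
  have key : ∀ l : Fin 3, ∀ x ∈ range (a+b+2), ∀ y ∈ range (a+b+2),
      ∀ᶠ M in atTop, (SW a b M ω l x y ↔ SI a b ω l x y) := by
    intro l x _ y _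
    by_cases h : SI a b ω l x y
    · obtain ⟨M0, h0⟩ := id h
      filter_upwards [eventually_ge_atTop M0] with M hM
      exact ⟨fun _ => h, fun _ => SW_mono ha hb hM h0⟩
    · exact Eventually.of_forall fun M => ⟨fun h1 => ⟨M, h1⟩, fun h1 => absurd h1 h⟩
  have key2 : ∀ᶠ M in atTop, ∀ l : Fin 3, ∀ x ∈ range (a+b+2), ∀ y ∈ range (a+b+2),
      (SW a b M ω l x y ↔ SI a b ω l x y) := by
    rw [eventually_all]
    intro l
    rw [Filter.eventually_all_finset]
    intro x hx
    rw [Filter.eventually_all_finset]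
    exact fun y hy => key l x hx y hy
  filter_upwards [key2] with M hM
  funext l x y
  apply propext
  have hw : wd a b l ≤ a + b + 1 := by unfold wd; split_ifs <;> omega
  by_cases hx : x < a+b+2 ∧ y < a+b+2
  · exact hM l x (mem_range.2 hx.1) y (mem_range.2 hx.2)
  · constructor
    · intro h; exact ⟨M, h⟩
    · rintro ⟨M', h⟩
      rcases SW_cases ha hb h with h1 | ⟨_, _, h3, h4⟩
      · rw [h1]; exact SW_refl a b M ω l y
      · omega

/-- the predicate of an event -/
def GE (E : Set Tri) (R R1 R2 : St) : Prop := tri R R1 R2 ∈ E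

theorem mem_winG (a b M : ℕ) (E : Set Tri) (ω : Conf) :
    ω ∈ WinG (GE E) a b M ↔ SW a b M ω ∈ E := Iff.rfl

theorem ev_mem {a b : ℕ} (ha : Odd a) (hb : Odd b) (E : Set Tri) (ω : Conf) :
    ∀ᶠ M in atTop, (ω ∈ WinG (GE E) a b M ↔ ω ∈ {ω | SI a b ω ∈ E}) := by
  filter_upwards [SW_eventually ha hb ω] with M hM
  rw [mem_winG, hM]

theorem measurableSet_SI {a b : ℕ} (ha : Odd a) (hb : Odd b) (E : Set Tri) :
    MeasurableSet {ω : Conf | SI a b ω ∈ E} :=
  measurableSet_of_tendsto_indicator atTop (fun M => measurableSet_winG (GE E) a b M)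
    (fun ω => ev_mem ha hb E ω)

/-- **the law of the states is the same in all layered environments** -/
theorem percP_SI {a b : ℕ} {p : Edge → I} {y0 y1 y2 : ℤ → I} (hp : Lay a b p y0 y1 y2)
    (h0 : ElP y0) (h1 : ElF y1) (h2 : ElF y2) (ha : Odd a) (hb : Odd b) (E : Set Tri) :
    (((percP p).real {ω : Conf | SI a b ω ∈ E} : ℝ) : ℂ) =
      pairG (GE E) (sv (a+b+1)) (sv a) (sv b) := by
  have e1 : Tendsto (fun M => (percP p).real (WinG (GE E) a b M)) atTop
      (𝓝 ((percP p).real {ω : Conf | SI a b ω ∈ E})) := by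
    have h := tendsto_measure_of_tendsto_indicator_of_isFiniteMeasure atTop (percP p)
      (fun M => measurableSet_winG (GE E) a b M) (fun ω => ev_mem ha hb E ω)
    exact (ENNReal.tendsto_toReal (measure_ne_top _ _)).comp h
  have e2 := (Complex.continuous_ofReal.tendsto _).comp e1
  exact tendsto_nhds_unique e2 (winG_tendsto (GE E) hp h0 h1 h2 ha hb)

/-- the constant environment `1/2` is layered -/
theorem lay_half (a b : ℕ) :
    Lay a b (fun _ => hlf) (fun _ => hlf) (fun _ => hlf) (fun _ => hlf) := by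
  constructor <;>
  · intro i r _ _ _
    rw [hlf_val]
    split_ifs <;> norm_num

theorem elP_half : ElP (fun _ => hlf) :=
  ⟨1/2, by norm_num, Frequently.of_forall fun _ => by rw [hlf_val]; norm_num⟩

theorem elF_half : ElF (fun _ => hlf) :=
  ⟨1/2, by norm_num, Frequently.of_forall fun _ => by rw [hlf_val]; norm_num⟩

theorem percP_SI_eq {a b : ℕ} {p : Edge → I} {y0 y1 y2 : ℤ → I} (hp : Lay a b p y0 y1 y2)
    (h0 : ElP y0) (h1 : ElF y1) (h2 : ElF y2) (ha : Odd a) (hb : Odd b) (E : Set Tri) :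
    (percP p).real {ω : Conf | SI a b ω ∈ E} = perc.real {ω : Conf | SI a b ω ∈ E} := by
  have e1 := percP_SI hp h0 h1 h2 ha hb E
  have e2 := percP_SI (lay_half a b) elP_half elF_half elF_half ha hb E
  rw [← perc_eq_percP] at e2
  exact_mod_cast e1.trans e2.symm

end Pool.Agent.H29.EU
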